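import Pool.Agent.Q197.KyB

/-!
# The separable refinement of Ky Fan's majorization

Let `A_i` and `B_i` be positive semidefinite matrices, `M = ∑ A_i ⊗ B_i`, and let `M'` be the same
sum with `A_i` and `B_i` replaced by the diagonal matrices of their eigenvalues in non-increasing
order. Then the vector of eigenvalues of `M` is majorized by that of `M'`. Q1 of `MP_5fe7ea_an`
is the case of two summands.

Proof. The sum of the `t` largest eigenvalues of `M` is the trace of `M Π` for a projection `Π` of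
rank `t`. Let `s` be the vector of eigenvalues of the partial trace `R` of `Π` over the second
factor. For projections `P`, `Q` of ranks `k`, `j` the partial trace `Y` of `(1 ⊗ Q) Π` is at most
`R` and at most `j`, so that `tr ((P ⊗ Q) Π) = tr (P Y) ≤ ∑_{i ≤ k} min (s_i, j)` by Ky Fan and
Weyl. By Abel summation `tr ((A ⊗ B) Π) ≤ ∑ a_i b_l x_{il}` for all `A`, `B`, with weights
`x_{il} = min (1, max (0, s_i - l + 1))` in `[0, 1]` of sum `t` which depend on `Π` only, so the
sum over all products is at most the sum of the `t` largest entries of `M'`.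
-/

namespace Pool.Agent.Results.MP_5fe7ea_an.SeparableKyFan

open Finset Matrix Pool.Agent.Q197.Ky
open scoped Kronecker ComplexOrder

/-- The diagonal matrix of the eigenvalues of a Hermitian matrix (with multiplicity) in
non-increasing order. -/
noncomputable def down {k : ℕ} (X : Matrix (Fin k) (Fin k) ℂ) (hX : X.IsHermitian) :
    Matrix (Fin k) (Fin k) ℂ :=
  Matrix.diagonal fun i => ((hX.eigenvalues₀ (Fin.cast (Fintype.card_fin k).symm i) : ℝ) : ℂ)

/-- `λ(X)` is majorized by `λ(Y)`, for Hermitian matrices `X`, `Y` (`eigenvalues₀` is the vector of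
eigenvalues, with multiplicity, in non-increasing order). -/
def Majorized {ι : Type} [Fintype ι] [DecidableEq ι] (X Y : Matrix ι ι ℂ) : Prop :=
  ∃ (hX : X.IsHermitian) (hY : Y.IsHermitian),
    (∀ t : ℕ, (∑ p : Fin (Fintype.card ι), if (p : ℕ) < t then hX.eigenvalues₀ p else 0) ≤
      ∑ p : Fin (Fintype.card ι), if (p : ℕ) < t then hY.eigenvalues₀ p else 0) ∧
    ∑ p, hX.eigenvalues₀ p = ∑ p, hY.eigenvalues₀ p

theorem qf_entries {ι κ : Type*} [Fintype ι] [DecidableEq ι] [Fintype κ] (M : Matrix ι ι ℂ)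
    (mu : κ → ℝ) (w : κ → EuclideanSpace ℂ ι)
    (h : ∀ p p', M p p' = ∑ k, ((mu k : ℝ) : ℂ) * (w k p * star (w k p')))
    (z : EuclideanSpace ℂ ι) :
    (inner ℂ z (toEuclideanLin M z)).re = ∑ k, mu k * ‖inner ℂ (w k) z‖ ^ 2 := by
  have h1 : inner ℂ z (toEuclideanLin M z) =
      ∑ k, ((mu k : ℝ) : ℂ) * (star (inner ℂ (w k) z) * inner ℂ (w k) z) := by
    have e1 : inner ℂ z (toEuclideanLin M z) = ∑ p, ∑ p', M p p' * z p' * star (z p) := by
      simp only [PiLp.inner_apply, RCLike.inner_apply, toLpLin_apply, Matrix.mulVec, dotProduct,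
        Finset.sum_mul]
      rfl
    have e2 : ∀ k, inner ℂ (w k) z = ∑ p', z p' * star (w k p') := by
      intro k
      simp only [PiLp.inner_apply, RCLike.inner_apply]
      rfl
    rw [e1]
    simp_rw [h, Finset.sum_mul]
    have e3 : ∀ p : ι, ∑ p' : ι, ∑ k, ((mu k : ℝ) : ℂ) * (w k p * star (w k p')) * z p' *
        star (z p) = ∑ k, ∑ p' : ι, ((mu k : ℝ) : ℂ) * (w k p * star (w k p')) * z p' *
        star (z p) := fun p => Finset.sum_comm
    simp_rw [e3]
    rw [Finset.sum_comm]
    refine Finset.sum_congr rfl fun k _ => ?_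
    rw [e2, star_sum, Finset.sum_mul_sum, Finset.mul_sum]
    refine Finset.sum_congr rfl fun p _ => ?_
    rw [Finset.mul_sum]
    refine Finset.sum_congr rfl fun p' _ => ?_
    rw [star_mul', star_star]
    ring
  rw [h1, Complex.re_sum]
  refine Finset.sum_congr rfl fun k _ => ?_
  have : star (inner ℂ (w k) z) * inner ℂ (w k) z = ((‖inner ℂ (w k) z‖ ^ 2 : ℝ) : ℂ) := by
    rw [← Complex.normSq_eq_norm_sq, Complex.normSq_eq_conj_mul_self]
    rfl
  rw [this, ← Complex.ofReal_mul, Complex.ofReal_re]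

theorem dec_matrix {ι : Type*} [Fintype ι] [DecidableEq ι] (M : Matrix ι ι ℂ)
    (hM : M.IsHermitian) :
    ∃ b : OrthonormalBasis (Fin (Fintype.card ι)) ℂ (EuclideanSpace ℂ ι),
      Dec (fun x => (inner ℂ x (toEuclideanLin M x)).re) b hM.eigenvalues₀ :=
  ⟨_, dec_symm (toEuclideanLin M) (isSymmetric_toEuclideanLin_iff.mpr hM) finrank_euclideanSpace⟩

/-- Spectral decomposition in entries. -/
theorem entries {k : ℕ} (X : Matrix (Fin k) (Fin k) ℂ) (hX : X.IsHermitian) :
    ∃ u : OrthonormalBasis (Fin k) ℂ (EuclideanSpace ℂ (Fin k)), ∀ p p', X p p' =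
      ∑ i, ((hX.eigenvalues₀ (Fin.cast (Fintype.card_fin k).symm i) : ℝ) : ℂ) *
        (u i p * star (u i p')) := by
  have hS := isSymmetric_toEuclideanLin_iff.mpr hX
  let b := hS.eigenvectorBasis finrank_euclideanSpace
  let e : Fin (Fintype.card (Fin k)) ≃ Fin k := finCongr (Fintype.card_fin k)
  refine ⟨b.reindex e, fun p p' => ?_⟩
  have h1 : X p p' = toEuclideanLin X (EuclideanSpace.single p' 1) p := by
    simp [toLpLin_apply]
  have h2 : toEuclideanLin X (EuclideanSpace.single p' 1) =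
      ∑ l, inner ℂ (b l) (EuclideanSpace.single p' (1 : ℂ)) •
        (((hX.eigenvalues₀ l : ℝ) : ℂ) • b l) := by
    conv_lhs => rw [← b.sum_repr' (EuclideanSpace.single p' (1 : ℂ)), map_sum]
    refine Finset.sum_congr rfl fun l _ => ?_
    rw [map_smul]
    congr 1
    exact hS.apply_eigenvectorBasis finrank_euclideanSpace l
  rw [h1, h2]
  rw [← Equiv.sum_comp e]
  have h3 : ∀ (v : Fin (Fintype.card (Fin k)) → EuclideanSpace ℂ (Fin k)),
      (∑ l, v l) p = ∑ l, v l p := by
    intro v
    simp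
  rw [h3]
  refine Finset.sum_congr rfl fun l _ => ?_
  have h4 : Fin.cast (Fintype.card_fin k).symm (e l) = l := by
    ext
    simp [e]
  rw [h4, OrthonormalBasis.reindex_apply, Equiv.symm_apply_apply]
  have h5 : inner ℂ (b l) (EuclideanSpace.single p' (1 : ℂ)) = star (b l p') := by
    rw [EuclideanSpace.inner_single_right]
    simp
  rw [PiLp.smul_apply, PiLp.smul_apply, h5, smul_eq_mul, smul_eq_mul]
  ring

theorem sum_eig {ι : Type*} [Fintype ι] [DecidableEq ι] (X : Matrix ι ι ℂ)
    (hX : X.IsHermitian) : ((∑ p, hX.eigenvalues₀ p : ℝ) : ℂ) = X.trace := by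
  rw [hX.trace_eq_sum_eigenvalues, Complex.ofReal_sum]
  simp only [IsHermitian.eigenvalues]
  exact (Equiv.sum_comp (Fintype.equivOfCardEq (Fintype.card_fin _)).symm
    (fun p => ((hX.eigenvalues₀ p : ℝ) : ℂ))).symm

theorem trace_down {k : ℕ} (X : Matrix (Fin k) (Fin k) ℂ) (hX : X.IsHermitian) :
    (down X hX).trace = X.trace := by
  rw [← sum_eig X hX, down, trace_diagonal, Complex.ofReal_sum,
    ← Equiv.sum_comp (finCongr (Fintype.card_fin k))]
  refine Finset.sum_congr rfl fun l _ => ?_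
  congr 2

theorem down_herm {k : ℕ} (X : Matrix (Fin k) (Fin k) ℂ) (hX : X.IsHermitian) :
    (down X hX).IsHermitian := by
  unfold Matrix.IsHermitian
  rw [down, diagonal_conjTranspose]
  congr 1
  ext i
  simp

theorem eig_nonneg {k : ℕ} (X : Matrix (Fin k) (Fin k) ℂ) (hX : X.PosSemidef)
    (p : Fin (Fintype.card (Fin k))) : 0 ≤ hX.1.eigenvalues₀ p := by
  have := hX.eigenvalues_nonneg ((Fintype.equivOfCardEq (Fintype.card_fin _)) p)
  simpa [IsHermitian.eigenvalues] using this

theorem herm_sum {m n r : ℕ} (A : Fin r → Matrix (Fin m) (Fin m) ℂ)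
    (B : Fin r → Matrix (Fin n) (Fin n) ℂ) (hA : ∀ i, (A i).IsHermitian)
    (hB : ∀ i, (B i).IsHermitian) : (∑ i, A i ⊗ₖ B i).IsHermitian := by
  unfold Matrix.IsHermitian
  rw [conjTranspose_sum]
  refine Finset.sum_congr rfl fun i _ => ?_
  rw [conjTranspose_kronecker, (hA i).eq, (hB i).eq]

theorem result {m n r : ℕ} (A : Fin r → Matrix (Fin m) (Fin m) ℂ)
    (B : Fin r → Matrix (Fin n) (Fin n) ℂ) (hA : ∀ i, (A i).PosSemidef)
    (hB : ∀ i, (B i).PosSemidef) :
    Majorized (∑ i, A i ⊗ₖ B i) (∑ i, down (A i) (hA i).1 ⊗ₖ down (B i) (hB i).1) := by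
  have hM : (∑ i, A i ⊗ₖ B i).IsHermitian := herm_sum A B (fun i => (hA i).1) fun i => (hB i).1
  have hM' : (∑ i, down (A i) (hA i).1 ⊗ₖ down (B i) (hB i).1).IsHermitian :=
    herm_sum _ _ (fun i => down_herm _ _) fun i => down_herm _ _
  have htot : ∑ p, hM.eigenvalues₀ p = ∑ p, hM'.eigenvalues₀ p := by
    have h1 := sum_eig _ hM
    have h2 := sum_eig _ hM'
    have h3 : (∑ i, A i ⊗ₖ B i).trace =
        (∑ i, down (A i) (hA i).1 ⊗ₖ down (B i) (hB i).1).trace := by
      rw [trace_sum, trace_sum]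
      refine Finset.sum_congr rfl fun i _ => ?_
      rw [trace_kronecker, trace_kronecker, trace_down, trace_down]
    rw [h3, ← h2] at h1
    exact_mod_cast h1
  refine ⟨hM, hM', fun t => ?_, htot⟩
  rcases le_or_gt t (Fintype.card (Fin m × Fin n)) with ht | ht
  swap
  · have h1 : ∀ p : Fin (Fintype.card (Fin m × Fin n)), (p : ℕ) < t := fun p => p.2.trans ht
    simp only [h1, if_true]
    exact htot.le
  obtain ⟨f, hf⟩ := dec_matrix _ hM
  obtain ⟨f', hf'⟩ := dec_matrix _ hM'
  choose u hu using fun i => entries (A i) (hA i).1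
  choose q hq using fun i => entries (B i) (hB i).1
  set a : Fin r → Fin m → ℝ := fun i p =>
    (hA i).1.eigenvalues₀ (Fin.cast (Fintype.card_fin m).symm p) with ha
  set b : Fin r → Fin n → ℝ := fun i p =>
    (hB i).1.eigenvalues₀ (Fin.cast (Fintype.card_fin n).symm p) with hb
  have haa : ∀ i, Antitone (a i) := fun i x y hxy =>
    IsHermitian.eigenvalues₀_antitone (hA i).1 (Fin.le_def.2 (Fin.le_def.1 hxy))
  have hba : ∀ i, Antitone (b i) := fun i x y hxy =>
    IsHermitian.eigenvalues₀_antitone (hB i).1 (Fin.le_def.2 (Fin.le_def.1 hxy))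
  have ha0 : ∀ i p, 0 ≤ a i p := fun i p => eig_nonneg _ (hA i) _
  have hb0 : ∀ i p, 0 ≤ b i p := fun i p => eig_nonneg _ (hB i) _
  let F : {p : Fin (Fintype.card (Fin m × Fin n)) // (p : ℕ) < t} →
    EuclideanSpace ℂ (Fin m × Fin n) := fun p => f p
  have hF : ∀ z, ∑ k, ‖inner ℂ (F k) z‖ ^ 2 ≤ ‖z‖ ^ 2 := by
    intro z
    rw [← f.sum_sq_norm_inner_right z]
    rw [← Finset.sum_subtype (Finset.univ.filter
      fun b : Fin (Fintype.card (Fin m × Fin n)) => (b : ℕ) < t)
        (by simp) (fun i => ‖inner ℂ (f i) z‖ ^ 2)]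
    exact Finset.sum_le_sum_of_subset_of_nonneg (Finset.filter_subset _ _)
      fun i _ _ => by positivity
  have hFt : ∑ k, ‖F k‖ ^ 2 = t := by
    rw [← Finset.sum_subtype (Finset.univ.filter
      fun b : Fin (Fintype.card (Fin m × Fin n)) => (b : ℕ) < t)
        (by simp) (fun i => ‖f i‖ ^ 2), Finset.sum_filter, ← count ht]
    refine Finset.sum_congr rfl fun i _ => ?_
    rw [f.norm_eq_one]
    norm_num
  obtain ⟨s, _, hs0, hsn, hst, hkey⟩ := marginal hF
  -- the left side
  have hL : (∑ p : Fin (Fintype.card (Fin m × Fin n)),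
      if (p : ℕ) < t then hM.eigenvalues₀ p else 0) =
      ∑ i, ∑ x, ∑ y, a i x * b i y * TT F (u i x) (q i y) := by
    have h1 : ∀ z, (inner ℂ z (toEuclideanLin (∑ i, A i ⊗ₖ B i) z)).re =
        ∑ k : Fin r × (Fin m × Fin n), (a k.1 k.2.1 * b k.1 k.2.2) *
          ‖inner ℂ (tens (u k.1 k.2.1) (q k.1 k.2.2)) z‖ ^ 2 := by
      intro z
      refine qf_entries _ _ _ (fun p p' => ?_) z
      rw [Matrix.sum_apply, Fintype.sum_prod_type]
      refine Finset.sum_congr rfl fun i _ => ?_
      rw [kroneckerMap_apply, hu, hq, Finset.sum_mul_sum, Fintype.sum_prod_type]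
      refine Finset.sum_congr rfl fun x _ => Finset.sum_congr rfl fun y _ => ?_
      rw [tens_apply, tens_apply, star_mul']
      push_cast
      ring
    have h2 : (∑ p : Fin (Fintype.card (Fin m × Fin n)),
        if (p : ℕ) < t then hM.eigenvalues₀ p else 0) =
        ∑ k, (inner ℂ (F k) (toEuclideanLin (∑ i, A i ⊗ₖ B i) (F k))).re := by
      rw [← Finset.sum_filter, Finset.sum_subtype
        (p := fun p : Fin (Fintype.card (Fin m × Fin n)) => (p : ℕ) < t) _ (by simp)]
      refine Finset.sum_congr rfl fun k _ => ?_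
      exact (hf.basis k).symm
    rw [h2]
    simp_rw [h1]
    rw [Finset.sum_comm, Fintype.sum_prod_type]
    refine Finset.sum_congr rfl fun i _ => ?_
    rw [Fintype.sum_prod_type]
    refine Finset.sum_congr rfl fun x _ => Finset.sum_congr rfl fun y _ => ?_
    rw [← Finset.mul_sum, TT]
    congr 1
    refine Finset.sum_congr rfl fun k _ => ?_
    rw [norm_inner_symm]
  rw [hL]
  refine (Finset.sum_le_sum fun i _ => product_le F hs0 (u i) (q i) (hkey (u i) (q i)) (a i)
    (b i) (haa i) (hba i) (ha0 i) (hb0 i)).trans ?_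
  -- the right side
  let c : Fin m × Fin n → ℝ := fun p => ∑ i, a i p.1 * b i p.2
  have h1 : ∀ z, (inner ℂ z (toEuclideanLin
      (∑ i, down (A i) (hA i).1 ⊗ₖ down (B i) (hB i).1) z)).re =
      ∑ k : Fin m × Fin n, c k * ‖inner ℂ (EuclideanSpace.single k (1 : ℂ)) z‖ ^ 2 := by
    intro z
    refine qf_entries _ _ _ (fun p p' => ?_) z
    rw [Matrix.sum_apply]
    by_cases hp : p = p'
    · subst hp
      rw [Finset.sum_eq_single p]
      · simp only [c, kroneckerMap_apply, down, diagonal_apply_eq]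
        simp [ha, hb]
      · intro k _ hk
        simp [Ne.symm hk]
      · simp
    · have e1 : ∀ k : Fin m × Fin n, (EuclideanSpace.single k (1 : ℂ) :
          EuclideanSpace ℂ (Fin m × Fin n)) p *
          star ((EuclideanSpace.single k (1 : ℂ) : EuclideanSpace ℂ (Fin m × Fin n)) p') = 0 := by
        intro k
        by_cases hk : k = p
        · subst hk
          simp [Ne.symm hp]
        · simp [Ne.symm hk]
      simp_rw [e1, mul_zero, Finset.sum_const_zero]
      refine Finset.sum_eq_zero fun i _ => ?_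
      rw [kroneckerMap_apply, down, down]
      by_cases h : p.1 = p'.1
      · have h' : p.2 ≠ p'.2 := fun h' => hp (Prod.ext h h')
        rw [diagonal_apply_ne _ h', mul_zero]
      · rw [diagonal_apply_ne _ h, zero_mul]
  let v : Fin m × Fin n → EuclideanSpace ℂ (Fin m × Fin n) := fun p =>
    EuclideanSpace.single p ((Real.sqrt (xw (s p.1) p.2) : ℝ) : ℂ)
  have hvi : ∀ p z, ‖inner ℂ (v p) z‖ ^ 2 = xw (s p.1) p.2 * ‖z p‖ ^ 2 := by
    intro p z
    rw [EuclideanSpace.inner_single_left, norm_mul, mul_pow]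
    congr 1
    rw [RCLike.norm_conj, Complex.norm_real, Real.norm_eq_abs, sq_abs,
      Real.sq_sqrt (xw_nonneg _ _)]
  have hky := ky hf' v (fun z => ?_) t ?_
  · refine le_trans (le_of_eq ?_) hky
    simp_rw [h1]
    have h2 : ∀ p, ∑ k : Fin m × Fin n, c k *
        ‖inner ℂ (EuclideanSpace.single k (1 : ℂ)) (v p)‖ ^ 2 = c p * xw (s p.1) p.2 := by
      intro p
      rw [Finset.sum_eq_single p]
      · rw [EuclideanSpace.inner_single_left]
        simp [v, abs_of_nonneg, Real.sq_sqrt (xw_nonneg _ _)]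
      · intro k _ hk
        rw [EuclideanSpace.inner_single_left]
        simp [v, hk]
      · simp
    simp_rw [h2]
    rw [Fintype.sum_prod_type, Finset.sum_comm]
    refine Finset.sum_congr rfl fun x _ => ?_
    rw [Finset.sum_comm]
    refine Finset.sum_congr rfl fun y _ => ?_
    rw [← Finset.sum_mul]
  · simp_rw [hvi]
    rw [EuclideanSpace.norm_sq_eq]
    refine Finset.sum_le_sum fun p _ => ?_
    have := xw_le (s p.1) p.2
    have h0 : 0 ≤ ‖z p‖ ^ 2 := by positivity
    nlinarith
  · rw [← hFt, ← hst, Fintype.sum_prod_type]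
    refine Finset.sum_congr rfl fun i _ => ?_
    have h3 := xw_sum_fin (n := n) (hs0 i) (le_refl n)
    rw [min_eq_left (hsn i)] at h3
    rw [← h3]
    refine Finset.sum_congr rfl fun l _ => ?_
    rw [if_pos l.2]
    simp [v, abs_of_nonneg, Real.sq_sqrt (xw_nonneg _ _)]

end Pool.Agent.Results.MP_5fe7ea_an.SeparableKyFan
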